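import Pool.Agent.Q236.CR.Stm

/-! Project CR (helper236), job DPL: Dirichlet polynomials over primes in mean square. -/

set_option autoImplicit false

namespace Pool.Agent.Q246.CR

open Finset Filter MeasureTheory
open Pool.Agent.Q236.CR

/-- summation by parts -/
theorem abel (a : ℕ → ℂ) (w : ℕ → ℝ) (hw : Monotone w) (S : ℝ) (u v : ℕ) (huv : u ≤ v)
    (hS : ∀ k, k ≤ v → ‖∑ n ∈ Ioc u k, a n‖ ≤ S) :
    ‖∑ n ∈ Ioc u v, a n * ((w n : ℝ) : ℂ) - (∑ n ∈ Ioc u v, a n) * ((w v : ℝ) : ℂ)‖ ≤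
      S * (w v - w u) := by
  induction v, huv using Nat.le_induction with
  | base => simp
  | succ v huv ih =>
    have h1 := ih fun k hk => hS k (by omega)
    rw [Finset.sum_Ioc_succ_top huv, Finset.sum_Ioc_succ_top huv]
    have e : ∑ n ∈ Ioc u v, a n * ((w n : ℝ) : ℂ) + a (v + 1) * ((w (v + 1) : ℝ) : ℂ) -
        (∑ n ∈ Ioc u v, a n + a (v + 1)) * ((w (v + 1) : ℝ) : ℂ) =
        (∑ n ∈ Ioc u v, a n * ((w n : ℝ) : ℂ) - (∑ n ∈ Ioc u v, a n) * ((w v : ℝ) : ℂ)) -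
        (∑ n ∈ Ioc u v, a n) * (((w (v + 1) - w v : ℝ)) : ℂ) := by
      push_cast
      ring
    rw [e]
    refine (norm_sub_le _ _).trans ?_
    have h2 : 0 ≤ w (v + 1) - w v := sub_nonneg.2 (hw (Nat.le_succ v))
    have h3 : ‖(∑ n ∈ Ioc u v, a n) * (((w (v + 1) - w v : ℝ)) : ℂ)‖ ≤ S * (w (v + 1) - w v) := by
      rw [norm_mul, Complex.norm_real, Real.norm_eq_abs, abs_of_nonneg h2]
      exact mul_le_mul_of_nonneg_right (hS v (by omega)) h2
    nlinarith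

theorem logmono : Monotone fun n : ℕ => Real.log n := by
  intro a b hab
  rcases Nat.eq_zero_or_pos a with h | h
  · simp only [h, Nat.cast_zero, Real.log_zero]
    exact Real.log_natCast_nonneg b
  · exact Real.log_le_log (by exact_mod_cast h) (by exact_mod_cast hab)

theorem nt_norm (τ : ℝ) (n : ℕ) (hn : 1 ≤ n) : ‖nt τ n‖ = 1 := by
  unfold nt
  rw [Complex.norm_natCast_cpow_of_pos hn]
  simp

theorem nt_norm_le (τ : ℝ) (n : ℕ) : ‖nt τ n‖ ≤ 1 := by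
  rcases Nat.eq_zero_or_pos n with h | h
  · rw [h]
    unfold nt
    by_cases hτ : τ = 0
    · simp [hτ]
    · rw [Nat.cast_zero, Complex.zero_cpow (by simp [hτ])]
      simp
  · exact (nt_norm τ n h).le

theorem nt_cont (n : ℕ) (hn : 1 ≤ n) : Continuous fun τ => nt τ n := by
  unfold nt
  have h0 : (n : ℂ) ≠ 0 := by exact_mod_cast (by omega : n ≠ 0)
  refine Continuous.const_cpow (by fun_prop) (Or.inl h0)

section

variable {q : ℕ} [NeZero q] (χ : DirichletCharacter ℂ q)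

/-- the second derivative bound for all blocks -/
theorem blockC {C : ℝ} (hC : 1 ≤ C)
    (h : ∀ (N N' : ℕ) (t : ℝ), 1 ≤ N → N ≤ N' → N' ≤ 2 * N → 1 ≤ |t| →
      ‖∑ n ∈ Finset.Ioc N N', χ (n : ZMod q) * nt t n‖ ≤
        q * (C * (√|t| + N / √|t|) * (1 + Real.log N)))
    (M u v : ℕ) (t : ℝ) (hM : 1 ≤ M) (hu : M ≤ u + 1) (hv : v ≤ 2 * M) (ht : 1 ≤ |t|) :
    ‖∑ n ∈ Finset.Ioc u v, χ (n : ZMod q) * nt t n‖ ≤
      3 * (q * (C * (√|t| + M / √|t|) * (1 + Real.log (2 * M)))) := by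
  have hs : 1 ≤ √|t| := by
    rw [show (1 : ℝ) = √1 by simp]
    exact Real.sqrt_le_sqrt ht
  have hMr : (1 : ℝ) ≤ M := by exact_mod_cast hM
  have hq : (1 : ℝ) ≤ q := by exact_mod_cast Nat.one_le_iff_ne_zero.2 (NeZero.ne q)
  have hl : 0 ≤ Real.log (2 * M) := Real.log_nonneg (by linarith)
  have hfr : 0 ≤ (M : ℝ) / √|t| := by positivity
  obtain ⟨Z, hZ⟩ : ∃ Z, Z = q * (C * (√|t| + M / √|t|) * (1 + Real.log (2 * M))) := ⟨_, rfl⟩
  have hZ1 : 1 ≤ Z := by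
    rw [hZ]
    have h1 : 1 ≤ C * (√|t| + M / √|t|) := by nlinarith
    have h2 : 1 ≤ C * (√|t| + M / √|t|) * (1 + Real.log (2 * M)) := by nlinarith
    nlinarith
  have hmain : ∀ N : ℕ, 1 ≤ N → N ≤ v → v ≤ 2 * N →
      ‖∑ n ∈ Finset.Ioc N v, χ (n : ZMod q) * nt t n‖ ≤ 2 * Z := by
    intro N hN hNv hvN
    refine (h N v t hN hNv hvN ht).trans ?_
    have hNM : (N : ℝ) ≤ 2 * M := by exact_mod_cast hNv.trans hv
    have hNr : (1 : ℝ) ≤ N := by exact_mod_cast hN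
    rw [hZ]
    have h1 : √|t| + N / √|t| ≤ 2 * (√|t| + M / √|t|) := by
      have : (N : ℝ) / √|t| ≤ 2 * M / √|t| := by gcongr
      rw [mul_div_assoc] at this
      linarith
    have h2 : 1 + Real.log N ≤ 1 + Real.log (2 * M) := by
      have := Real.log_le_log (by linarith) hNM
      linarith
    have h3 : 0 ≤ 1 + Real.log N := by
      have := Real.log_nonneg hNr
      linarith
    calc (q : ℝ) * (C * (√|t| + N / √|t|) * (1 + Real.log N)) ≤
        q * (C * (2 * (√|t| + M / √|t|)) * (1 + Real.log (2 * M))) := by gcongr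
      _ = _ := by ring
  rw [← hZ]
  rcases Nat.lt_or_ge u v with huv | huv
  · rcases Nat.lt_or_ge u M with h1 | h1
    · have hu2 : M = u + 1 := by omega
      have e : Finset.Ioc u v = insert M (Finset.Ioc M v) := by
        ext n
        simp only [Finset.mem_insert, Finset.mem_Ioc]
        omega
      rw [e, Finset.sum_insert (by simp)]
      refine (norm_add_le _ _).trans ?_
      have h2 : ‖χ (M : ZMod q) * nt t M‖ ≤ 1 := by
        rw [norm_mul]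
        exact mul_le_one₀ (χ.norm_le_one _) (norm_nonneg _) (nt_norm_le t M)
      have h3 := hmain M hM (by omega) hv
      linarith
    · have h3 := hmain u (by omega) huv.le (by omega)
      linarith
  · rw [Finset.Ioc_eq_empty (by omega)]
    simp only [Finset.sum_empty, norm_zero]
    linarith

/-- the same with the weight `log` -/
theorem blockL {C : ℝ} (hC : 1 ≤ C)
    (h : ∀ (N N' : ℕ) (t : ℝ), 1 ≤ N → N ≤ N' → N' ≤ 2 * N → 1 ≤ |t| →
      ‖∑ n ∈ Finset.Ioc N N', χ (n : ZMod q) * nt t n‖ ≤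
        q * (C * (√|t| + N / √|t|) * (1 + Real.log N)))
    (M u v : ℕ) (t : ℝ) (hM : 1 ≤ M) (hu : M ≤ u + 1) (hv : v ≤ 2 * M) (ht : 1 ≤ |t|) :
    ‖∑ n ∈ Finset.Ioc u v, (χ (n : ZMod q) * (Real.log n : ℂ)) * nt t n‖ ≤
      3 * (q * (C * (√|t| + M / √|t|) * (1 + Real.log (2 * M)))) * (2 * Real.log (2 * M)) := by
  have hMr : (1 : ℝ) ≤ M := by exact_mod_cast hM
  have hl : 0 ≤ Real.log (2 * M) := Real.log_nonneg (by linarith)
  obtain ⟨Z, hZ⟩ : ∃ Z, Z = 3 * (q * (C * (√|t| + M / √|t|) * (1 + Real.log (2 * M)))) := ⟨_, rfl⟩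
  have hZ0 : 0 ≤ Z := by
    rw [hZ]
    positivity
  rw [← hZ]
  rcases Nat.lt_or_ge u v with huv | huv
  · have h1 := abel (fun n => χ (n : ZMod q) * nt t n) (fun n => Real.log n) logmono Z u v huv.le
      fun k hk => by
        rw [hZ]
        exact blockC χ hC h M u k t hM hu (hk.trans hv) ht
    have h2 := blockC χ hC h M u v t hM hu hv ht
    rw [← hZ] at h2
    have h3 : ∑ n ∈ Finset.Ioc u v, (χ (n : ZMod q) * (Real.log n : ℂ)) * nt t n =
        ∑ n ∈ Finset.Ioc u v, χ (n : ZMod q) * nt t n * ((Real.log n : ℝ) : ℂ) :=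
      Finset.sum_congr rfl fun n _ => by ring
    rw [h3]
    have h4 : Real.log v ≤ Real.log (2 * M) :=
      Real.log_le_log (by exact_mod_cast (by omega : 0 < v)) (by exact_mod_cast hv)
    have h5 : 0 ≤ Real.log u := Real.log_natCast_nonneg u
    have h6 : 0 ≤ Real.log v := Real.log_natCast_nonneg v
    have h7 : ‖(∑ n ∈ Finset.Ioc u v, χ (n : ZMod q) * nt t n) * ((Real.log v : ℝ) : ℂ)‖ ≤
        Z * Real.log v := by
      rw [norm_mul, Complex.norm_real, Real.norm_eq_abs, abs_of_nonneg h6]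
      exact mul_le_mul_of_nonneg_right h2 h6
    have h8 := norm_add_le (∑ n ∈ Finset.Ioc u v, χ (n : ZMod q) * nt t n * ((Real.log n : ℝ) : ℂ) -
      (∑ n ∈ Finset.Ioc u v, χ (n : ZMod q) * nt t n) * ((Real.log v : ℝ) : ℂ))
      ((∑ n ∈ Finset.Ioc u v, χ (n : ZMod q) * nt t n) * ((Real.log v : ℝ) : ℂ))
    rw [sub_add_cancel] at h8
    have h9 : Z * (Real.log v - Real.log u) ≤ Z * Real.log (2 * M) :=
      mul_le_mul_of_nonneg_left (by linarith) hZ0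
    have h10 : Z * Real.log v ≤ Z * Real.log (2 * M) := mul_le_mul_of_nonneg_left h4 hZ0
    linarith
  · rw [Finset.Ioc_eq_empty (by omega)]
    simp only [Finset.sum_empty, norm_zero]
    positivity

end

/-! ### real inequalities -/

theorem real_a (X Y L T M b : ℝ) (K : ℕ) (hX : X = Y ^ 3) (hY : 1 ≤ Y) (hL : 17 ≤ L) (hM : 1 ≤ M)
    (hMY : M ≤ 8 * Y) (hT : 0 ≤ T) (hT2 : T ≤ 2 * Y ^ 2) (hb : 0 ≤ b) (hb2 : b ≤ M / L ^ (K + 1)) :
    b ^ 2 * ((T + X / M) * (X / M)) ≤ X ^ 2 / L ^ K := by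
  have hL0 : 0 < L := by linarith
  have hM0 : 0 < M := by linarith
  have hX0 : 0 < X := by rw [hX]; positivity
  have hp : 0 ≤ (T + X / M) * (X / M) := by positivity
  have h1 : b ^ 2 ≤ (M / L ^ (K + 1)) ^ 2 := pow_le_pow_left₀ hb hb2 2
  refine (mul_le_mul_of_nonneg_right h1 hp).trans ?_
  have h2 : (M / L ^ (K + 1)) ^ 2 * ((T + X / M) * (X / M)) =
      (T * M * X + X ^ 2) / (L ^ (K + 1)) ^ 2 := by
    field_simp
  rw [h2]
  have h3 : T * M * X ≤ 16 * X ^ 2 := by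
    have h4 : T * M ≤ 2 * Y ^ 2 * (8 * Y) := mul_le_mul hT2 hMY hM0.le (by positivity)
    have h5 : 2 * Y ^ 2 * (8 * Y) = 16 * X := by rw [hX]; ring
    rw [h5] at h4
    nlinarith
  rw [div_le_div_iff₀ (by positivity) (by positivity)]
  have h6 : 17 * L ^ K ≤ (L ^ (K + 1)) ^ 2 := by
    have h7 : (1 : ℝ) ≤ L ^ (K + 1) := one_le_pow₀ (by linarith)
    have h8 : L ^ (K + 1) = L ^ K * L := pow_succ L K
    have h9 : 0 < L ^ K := by positivity
    nlinarith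
  have h10 : (T * M * X + X ^ 2) * L ^ K ≤ 17 * X ^ 2 * L ^ K := by
    have : 0 < L ^ K := by positivity
    nlinarith
  nlinarith [sq_nonneg X]

theorem real_c1 (X Y P T M : ℝ) (hX : X = Y ^ 3) (hY : 1 ≤ Y) (hP : 1 ≤ P)
    (hMY : Y ≤ M) (hMX : M * P ≤ X) (hT : P ≤ T) (hT2 : T * P ≤ 2 * Y ^ 2) :
    (T + M ^ 2 / T) * ((T + X / M) * (X / M)) ≤ 8 * X ^ 2 / P := by
  have hT0 : 0 < T := by linarith
  have hM0 : 0 < M := by linarith
  have hX0 : 0 < X := by rw [hX]; positivity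
  have hP0 : 0 < P := by linarith
  have e : (T + M ^ 2 / T) * ((T + X / M) * (X / M)) =
      T ^ 2 * X / M + T * X ^ 2 / M ^ 2 + M * X + X ^ 2 / T := by
    field_simp
    ring
  rw [e]
  have hT3 : T ≤ 2 * Y ^ 2 := by nlinarith
  have t1 : T ^ 2 * X / M ≤ 4 * (X ^ 2 / P) := by
    rw [← mul_div_assoc, div_le_div_iff₀ hM0 hP0]
    have h1 : T ^ 2 * P ≤ 4 * Y ^ 4 := by
      have : T * (T * P) ≤ (2 * Y ^ 2) * (2 * Y ^ 2) := mul_le_mul hT3 hT2 (by positivity) (by positivity)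
      nlinarith
    calc T ^ 2 * X * P = (T ^ 2 * P) * X := by ring
      _ ≤ (4 * Y ^ 4) * X := by gcongr
      _ = 4 * X ^ 2 * Y := by rw [hX]; ring
      _ ≤ 4 * X ^ 2 * M := by gcongr
  have t2 : T * X ^ 2 / M ^ 2 ≤ 2 * (X ^ 2 / P) := by
    rw [← mul_div_assoc, div_le_div_iff₀ (by positivity) hP0]
    have h1 : Y ^ 2 ≤ M ^ 2 := by gcongr
    calc T * X ^ 2 * P = (T * P) * X ^ 2 := by ring
      _ ≤ (2 * Y ^ 2) * X ^ 2 := by gcongr
      _ ≤ (2 * M ^ 2) * X ^ 2 := by gcongr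
      _ = _ := by ring
  have t3 : M * X ≤ X ^ 2 / P := by
    rw [le_div_iff₀ hP0]
    nlinarith
  have t4 : X ^ 2 / T ≤ X ^ 2 / P := by gcongr
  have e2 : 8 * X ^ 2 / P = 8 * (X ^ 2 / P) := by ring
  rw [e2]
  linarith

theorem real_c2 (X Y P T M A : ℝ) (hX : X = Y ^ 3) (hY : 1 ≤ Y) (hP : 1 ≤ P) (hM0 : 0 < M)
    (hA : 0 ≤ A) (hMX : X ≤ M * P) (hMA : M ≤ A * X) (hT : P ≤ T) (hT2 : T * P ^ 2 ≤ 2 * Y ^ 2) :
    (M ^ 2 / T ^ 2 + T ^ 2) * ((T + X / M) * (X / M)) ≤ (A + 13) * X ^ 2 / P := by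
  have hT0 : 0 < T := by linarith
  have hX0 : 0 < X := by rw [hX]; positivity
  have hP0 : 0 < P := by linarith
  have e : (M ^ 2 / T ^ 2 + T ^ 2) * ((T + X / M) * (X / M)) =
      M * X / T + X ^ 2 / T ^ 2 + T ^ 3 * X / M + T ^ 2 * X ^ 2 / M ^ 2 := by
    field_simp
    ring
  rw [e]
  have t1 : M * X / T ≤ A * (X ^ 2 / P) := by
    rw [← mul_div_assoc, div_le_div_iff₀ hT0 hP0]
    calc M * X * P ≤ (A * X) * X * T := by gcongr
      _ = _ := by ring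
  have t2 : X ^ 2 / T ^ 2 ≤ X ^ 2 / P := by
    have : P ≤ T ^ 2 := by nlinarith
    gcongr
  have hTP : T * P ≤ 2 * Y ^ 2 := by nlinarith [mul_le_mul_of_nonneg_left hP (by positivity : 0 ≤ T * P)]
  have hX1 : 1 ≤ X := by rw [hX]; exact one_le_pow₀ hY
  have hX2 : X ^ 2 = Y ^ 6 := by rw [hX]; ring
  have t3 : T ^ 3 * X / M ≤ 8 * (X ^ 2 / P) := by
    rw [← mul_div_assoc, div_le_div_iff₀ hM0 hP0]
    have h2 : T ^ 3 * P ^ 2 ≤ 8 * X ^ 2 := by
      have h3 : T ^ 3 * P ^ 2 ≤ T ^ 3 * P ^ 3 := by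
        have : P ^ 2 ≤ P ^ 3 := pow_le_pow_right₀ hP (by norm_num)
        gcongr
      have h4 : (T * P) ^ 3 ≤ (2 * Y ^ 2) ^ 3 := by gcongr
      rw [hX2]
      calc T ^ 3 * P ^ 2 ≤ T ^ 3 * P ^ 3 := h3
        _ = (T * P) ^ 3 := by ring
        _ ≤ (2 * Y ^ 2) ^ 3 := h4
        _ = _ := by ring
    calc T ^ 3 * X * P ≤ T ^ 3 * (M * P) * P := by gcongr
      _ = (T ^ 3 * P ^ 2) * M := by ring
      _ ≤ (8 * X ^ 2) * M := by gcongr
  have t4 : T ^ 2 * X ^ 2 / M ^ 2 ≤ 4 * (X ^ 2 / P) := by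
    rw [← mul_div_assoc, div_le_div_iff₀ (by positivity) hP0]
    have h1 : X ^ 2 ≤ (M * P) ^ 2 := by gcongr
    have h2 : T ^ 2 * P ^ 3 ≤ 4 * X ^ 2 := by
      have h3 : (T * P ^ 2) ^ 2 ≤ (2 * Y ^ 2) ^ 2 := by gcongr
      have h4 : P ^ 3 ≤ P ^ 4 := pow_le_pow_right₀ hP (by norm_num)
      have h5 : Y ^ 4 ≤ Y ^ 6 := pow_le_pow_right₀ hY (by norm_num)
      rw [hX2]
      calc T ^ 2 * P ^ 3 ≤ T ^ 2 * P ^ 4 := by gcongr
        _ = (T * P ^ 2) ^ 2 := by ring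
        _ ≤ (2 * Y ^ 2) ^ 2 := h3
        _ = 4 * Y ^ 4 := by ring
        _ ≤ _ := by gcongr
    calc T ^ 2 * X ^ 2 * P ≤ T ^ 2 * (M * P) ^ 2 * P := by gcongr
      _ = (T ^ 2 * P ^ 3) * M ^ 2 := by ring
      _ ≤ (4 * X ^ 2) * M ^ 2 := by gcongr
  have e2 : (A + 13) * X ^ 2 / P = A * (X ^ 2 / P) + 13 * (X ^ 2 / P) := by ring
  rw [e2]
  have : 0 ≤ X ^ 2 / P := by positivity
  linarith

/-! ### good factors -/

/-- the three types of factors -/
def Typ (g : ℕ → ℂ) (z : ℕ) (F : ℕ → ℂ) : Prop :=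
  F = gmu g z ∨ F = g ∨ F = fun n => g n * (Real.log n : ℂ)

theorem good_all (hPW : S_PW) (hCHR : S_CHR) (hFD : S_FD) (B K : ℕ) : ∃ Cm : ℕ, ∀ C₀ : ℕ, Cm ≤ C₀ →
    ∃ C₁ X₀ : ℕ, ∀ X : ℕ, X₀ ≤ X → ∀ (q : ℕ) (_ : NeZero q), (q : ℝ) ≤ Real.log X ^ B →
    ∀ χ : DirichletCharacter ℂ q, ∀ T : ℝ, T * Real.log X ^ C₁ ≤ (X : ℝ) ^ (2 / 3 : ℝ) →
    Real.log X ^ C₀ ≤ T → ∀ (z M : ℕ) (F : ℕ → ℂ), Typ (fun n => χ (n : ZMod q)) z F → 1 ≤ M →
    X ≤ M ^ 6 → M ≤ 18 ^ 6 * X → (z : ℝ) ≤ 8 * (X : ℝ) ^ (1 / 3 : ℝ) →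
    Good X T (2 * T) K F M := by
  obtain ⟨-, CC, hCC, hch⟩ := hCHR
  obtain ⟨CF, hCF, hfd⟩ := hFD
  obtain ⟨Cp, Xp, hpw⟩ := hPW B (K + 1) 6 (by norm_num)
  refine ⟨Cp + (K + 2 * B + 5), fun C₀ hC₀ => ?_⟩
  obtain ⟨X1, hX1⟩ : ∃ X1 : ℕ, ∀ X : ℕ, X1 ≤ X →
      93312 * CC ^ 2 + 72 * (18 ^ 6 + 13) * CF ^ 2 + 2 * 18 ^ 6 + 17 ≤ Real.log X := by
    have := (Real.tendsto_log_atTop.comp tendsto_natCast_atTop_atTop).eventually_ge_atTop
      (93312 * CC ^ 2 + 72 * (18 ^ 6 + 13) * CF ^ 2 + 2 * 18 ^ 6 + 17)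
    exact eventually_atTop.1 this
  refine ⟨2 * (K + 2 * B + 5), max Xp (max X1 (18 ^ 6)), fun X hX q _ hq χ T hT1 hT2 z M F hF hM1
    hXM hM2 hz => ?_⟩
  have hXp : Xp ≤ X := (le_max_left _ _).trans hX
  have hL := hX1 X ((le_max_left _ _).trans ((le_max_right _ _).trans hX))
  have hX18 : 18 ^ 6 ≤ X := (le_max_right _ _).trans ((le_max_right _ _).trans hX)
  obtain ⟨L, hLd⟩ : ∃ L, L = Real.log X := ⟨_, rfl⟩
  rw [← hLd] at hL hq hT1 hT2
  have hCC2 : 0 ≤ CC ^ 2 := sq_nonneg _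
  have hCF2 : 0 ≤ CF ^ 2 := sq_nonneg _
  have hL17 : 17 ≤ L := by nlinarith
  have hL1 : 1 ≤ L := by linarith
  have hL0 : 0 < L := by linarith
  have hLC : 93312 * CC ^ 2 ≤ L := by nlinarith
  have hLF : 72 * (18 ^ 6 + 13) * CF ^ 2 ≤ L := by nlinarith
  have hLK : 2 * 18 ^ 6 + 1 ≤ L := by nlinarith
  have hXr : (1 : ℝ) ≤ X := by exact_mod_cast (show 1 ≤ X by omega)
  obtain ⟨Y, hYd⟩ : ∃ Y, Y = (X : ℝ) ^ (1 / 3 : ℝ) := ⟨_, rfl⟩
  rw [← hYd] at hz
  have hY1 : 1 ≤ Y := by rw [hYd]; exact Real.one_le_rpow hXr (by norm_num)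
  have hY3 : (X : ℝ) = Y ^ 3 := by
    rw [hYd, ← Real.rpow_natCast, ← Real.rpow_mul (by linarith)]
    norm_num
  have hY2 : (X : ℝ) ^ (2 / 3 : ℝ) = Y ^ 2 := by
    rw [hYd, ← Real.rpow_natCast, ← Real.rpow_mul (by linarith)]
    norm_num
  rw [hY2] at hT1
  obtain ⟨P, hPd⟩ : ∃ P, P = L ^ (K + 2 * B + 5) := ⟨_, rfl⟩
  have hP1 : 1 ≤ P := by rw [hPd]; exact one_le_pow₀ hL1
  have hPT : P ≤ T := by
    refine le_trans ?_ hT2
    rw [hPd]
    exact pow_le_pow_right₀ hL1 (by omega)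
  have hT0 : 0 < T := by linarith
  have hTP2 : (2 * T) * P ^ 2 ≤ 2 * Y ^ 2 := by
    have : L ^ (2 * (K + 2 * B + 5)) = P ^ 2 := by rw [hPd, ← pow_mul, mul_comm]
    rw [this] at hT1
    linarith
  have hTP : (2 * T) * P ≤ 2 * Y ^ 2 := by
    refine le_trans ?_ hTP2
    have : P ≤ P ^ 2 := by nlinarith
    have h2 : 0 ≤ 2 * T := by linarith
    nlinarith
  have hTY : 2 * T ≤ 2 * Y ^ 2 := by nlinarith
  have hMr : (1 : ℝ) ≤ M := by exact_mod_cast hM1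
  have hM2r : (M : ℝ) ≤ 18 ^ 6 * X := by exact_mod_cast hM2
  have hlog : 1 + Real.log (2 * M) ≤ 3 * L := by
    have h1 : Real.log (2 * M) ≤ Real.log (2 * 18 ^ 6 * X) :=
      Real.log_le_log (by linarith) (by linarith)
    have h3 : Real.log (2 * 18 ^ 6 * X) = Real.log (2 * 18 ^ 6) + L := by
      rw [Real.log_mul (by norm_num) (by linarith), ← hLd]
    have h2 : Real.log (2 * 18 ^ 6) ≤ 2 * 18 ^ 6 := Real.log_le_self (by norm_num)
    linarith
  have hlog0 : 0 ≤ Real.log (2 * M) := Real.log_nonneg (by linarith)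
  have hlogM : Real.log M ≤ Real.log (2 * M) := Real.log_le_log (by linarith) (by linarith)
  have hlogM0 : 0 ≤ Real.log M := Real.log_nonneg hMr
  have hq1 : (1 : ℝ) ≤ q := by exact_mod_cast Nat.one_le_iff_ne_zero.2 (NeZero.ne q)
  have hLB1 : 1 ≤ L ^ B := hq1.trans hq
  intro u v hu hv τ hτ1 hτ2
  rw [← hLd]
  -- the pointwise bound
  have hτ3 : Real.log X ^ Cp ≤ |τ| := by
    rw [← hLd]
    refine le_trans ?_ (hT2.trans hτ1)
    exact pow_le_pow_right₀ hL1 (by omega)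
  have hτX : |τ| ≤ X := by
    refine hτ2.trans ?_
    have h1 : 2 * T * P ≤ 2 * Y ^ 2 := hTP
    have h2 : P ≥ 2 := by
      rw [hPd]
      refine le_trans (by linarith : (2 : ℝ) ≤ L) (le_self_pow₀ hL1 (by omega))
    have h3 : 2 * T ≤ Y ^ 2 := by nlinarith
    rw [hY3]
    nlinarith [pow_pos (by linarith : 0 < Y) 2]
  have hM3 : M ≤ X ^ 2 := by nlinarith
  have hXM' : (X : ℝ) ≤ (M : ℝ) ^ 6 := by exact_mod_cast hXM
  have hQ : (q : ℝ) ≤ Real.log X ^ B := by rw [← hLd]; exact hq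
  have hPWv : ∀ v', v' ≤ 2 * M →
    ‖∑ n ∈ Finset.Ioc u v', (χ (n : ZMod q) * ((ArithmeticFunction.moebius n : ℤ) : ℂ)) * nt τ n‖ ≤
      M / L ^ (K + 1) ∧
    ‖∑ n ∈ Finset.Ioc u v', χ (n : ZMod q) * nt τ n‖ ≤ M / L ^ (K + 1) ∧
    ‖∑ n ∈ Finset.Ioc u v', (χ (n : ZMod q) * (Real.log n : ℂ)) * nt τ n‖ ≤ M / L ^ (K + 1) := by
    intro v' hv'
    rw [hLd]
    exact hpw X hXp q inferInstance hQ χ M u v' hXM' hu hv' hM3 τ hτ3 hτX
  rcases hF with rfl | hF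
  · -- the cut Moebius function
    rcases Nat.lt_or_ge z M with hzM | hzM
    · have h0 : ∑ n ∈ Finset.Ioc u v, gmu (fun n => χ (n : ZMod q)) z n * nt τ n = 0 := by
        refine Finset.sum_eq_zero fun n hn => ?_
        rw [Finset.mem_Ioc] at hn
        unfold gmu
        rw [if_neg (by omega), zero_mul]
      rw [h0, norm_zero]
      have : 0 ≤ (X : ℝ) ^ 2 / L ^ K := by positivity
      simpa using this
    · have h0 : ∑ n ∈ Finset.Ioc u v, gmu (fun n => χ (n : ZMod q)) z n * nt τ n =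
          ∑ n ∈ Finset.Ioc u (min v z),
            (χ (n : ZMod q) * ((ArithmeticFunction.moebius n : ℤ) : ℂ)) * nt τ n := by
        rw [← Finset.sum_subset (s₁ := Finset.Ioc u (min v z)) (s₂ := Finset.Ioc u v)]
        · refine Finset.sum_congr rfl fun n hn => ?_
          rw [Finset.mem_Ioc] at hn
          unfold gmu
          rw [if_pos (by omega)]
        · exact Finset.Ioc_subset_Ioc le_rfl (min_le_left _ _)
        · intro n hn hn2
          rw [Finset.mem_Ioc] at hn hn2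
          unfold gmu
          rw [if_neg (by omega), zero_mul]
      rw [h0]
      have hMz : (M : ℝ) ≤ z := by exact_mod_cast hzM
      exact real_a X Y L (2 * T) M _ K hY3 hY1 hL17 hMr (hMz.trans hz) (by linarith) hTY
        (norm_nonneg _) (hPWv (min v z) ((min_le_left _ _).trans hv)).1
  · -- the two smooth factors
    have hb1 : ‖∑ n ∈ Finset.Ioc u v, F n * nt τ n‖ ≤ M / L ^ (K + 1) := by
      rcases hF with rfl | rfl
      · exact (hPWv v hv).2.1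
      · exact (hPWv v hv).2.2
    have ht1 : 1 ≤ |τ| := by linarith
    have ht0 : 0 < |τ| := by linarith
    rcases le_or_gt (M : ℝ) (8 * Y) with hMY | hMY
    · exact real_a X Y L (2 * T) M _ K hY3 hY1 hL17 hMr hMY (by linarith) hTY (norm_nonneg _) hb1
    have hMY' : Y ≤ M := by linarith
    obtain ⟨b, hbd⟩ : ∃ b, b = ‖∑ n ∈ Finset.Ioc u v, F n * nt τ n‖ := ⟨_, rfl⟩
    rw [← hbd]
    have hb0 : 0 ≤ b := by rw [hbd]; exact norm_nonneg _
    have hpw0 : 0 ≤ (2 * T + X / M) * ((X : ℝ) / M) := by positivity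
    have hXK : 0 ≤ (X : ℝ) ^ 2 := by positivity
    have hPe : P = L ^ (2 * B + 4) * (L * L ^ K) := by
      rw [hPd, ← pow_succ', ← pow_add]
      congr 1
      omega
    rcases le_or_gt ((M : ℝ) * P) X with hMP | hMP
    · -- second derivative
      have hb2 : b ≤ 6 * (q * (CC * (√|τ| + M / √|τ|))) * (3 * L) ^ 2 := by
        have h0 : 0 ≤ q * (CC * (√|τ| + M / √|τ|)) := by positivity
        have hc1 := blockC χ hCC (fun N N' t => hch q inferInstance χ N N' t) M u v τ hM1 hu hv ht1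
        have hc2 := blockL χ hCC (fun N N' t => hch q inferInstance χ N N' t) M u v τ hM1 hu hv ht1
        obtain ⟨Q, hQd⟩ : ∃ Q, Q = q * (CC * (√|τ| + M / √|τ|)) := ⟨_, rfl⟩
        have e1 : (q : ℝ) * (CC * (√|τ| + M / √|τ|) * (1 + Real.log (2 * M))) =
          Q * (1 + Real.log (2 * M)) := by rw [hQd]; ring
        rw [e1] at hc1 hc2
        rw [← hQd] at h0 ⊢
        have e2 : 1 + Real.log (2 * M) ≤ (3 * L) ^ 2 := by nlinarith
        have e3 : (1 + Real.log (2 * M)) * (Real.log (2 * M)) ≤ (3 * L) ^ 2 := by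
          rw [pow_two]
          exact mul_le_mul hlog (by linarith) hlog0 (by linarith)
        rcases hF with rfl | rfl
        · rw [hbd]
          refine hc1.trans ?_
          have := mul_le_mul_of_nonneg_left e2 h0
          nlinarith [sq_nonneg (3 * L)]
        · rw [hbd]
          refine hc2.trans ?_
          have := mul_le_mul_of_nonneg_left e3 h0
          nlinarith
      have hb3 : b ^ 2 ≤ 11664 * CC ^ 2 * L ^ (2 * B + 4) * (2 * T + M ^ 2 / (2 * T)) := by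
        have hs : (√|τ| + M / √|τ|) ^ 2 ≤ 4 * (2 * T + M ^ 2 / (2 * T)) := by
          have h1 : √|τ| ^ 2 = |τ| := Real.sq_sqrt ht0.le
          have h2 : ((M : ℝ) / √|τ|) ^ 2 = M ^ 2 / |τ| := by rw [div_pow, h1]
          have h3 : (M : ℝ) ^ 2 / |τ| ≤ M ^ 2 / T := by gcongr
          have h4 : (M : ℝ) ^ 2 / T = 2 * (M ^ 2 / (2 * T)) := by field_simp
          have h5 : 0 ≤ (M : ℝ) ^ 2 / (2 * T) := by positivity
          nlinarith [sq_nonneg (√|τ| - M / √|τ|)]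
        have h6 : 6 * (q * (CC * (√|τ| + M / √|τ|))) * (3 * L) ^ 2 ≤
            54 * (L ^ B * (CC * (√|τ| + M / √|τ|))) * L ^ 2 := by
          have : (q : ℝ) * (CC * (√|τ| + M / √|τ|)) ≤ L ^ B * (CC * (√|τ| + M / √|τ|)) := by gcongr
          nlinarith [sq_nonneg L]
        have h7 : b ^ 2 ≤ (54 * (L ^ B * (CC * (√|τ| + M / √|τ|))) * L ^ 2) ^ 2 :=
          pow_le_pow_left₀ hb0 (hb2.trans h6) 2
        refine h7.trans ?_
        have h8 : (54 * (L ^ B * (CC * (√|τ| + M / √|τ|))) * L ^ 2) ^ 2 =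
            (2916 * CC ^ 2 * L ^ (2 * B + 4)) * (√|τ| + M / √|τ|) ^ 2 := by
          rw [show 2 * B + 4 = B + B + 4 by ring, pow_add, pow_add]
          ring
        rw [h8]
        have h9 : 0 ≤ 2916 * CC ^ 2 * L ^ (2 * B + 4) := by positivity
        nlinarith [mul_le_mul_of_nonneg_left hs h9]
      have hr := real_c1 X Y P (2 * T) M hY3 hY1 hP1 hMY' hMP (by linarith) hTP
      calc b ^ 2 * ((2 * T + X / M) * (X / M)) ≤
          (11664 * CC ^ 2 * L ^ (2 * B + 4) * (2 * T + M ^ 2 / (2 * T))) *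
            ((2 * T + X / M) * (X / M)) := mul_le_mul_of_nonneg_right hb3 hpw0
        _ = (11664 * CC ^ 2 * L ^ (2 * B + 4)) * ((2 * T + M ^ 2 / (2 * T)) *
            ((2 * T + X / M) * (X / M))) := by ring
        _ ≤ (11664 * CC ^ 2 * L ^ (2 * B + 4)) * (8 * X ^ 2 / P) :=
            mul_le_mul_of_nonneg_left hr (by positivity)
        _ = (93312 * CC ^ 2) * X ^ 2 / (L * L ^ K) := by
            rw [hPe]
            field_simp
            ring
        _ ≤ L * X ^ 2 / (L * L ^ K) := by gcongr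
        _ = X ^ 2 / L ^ K := by field_simp
    · -- the trivial approximation
      have hb2 : b ≤ CF * (L ^ B * (M / |τ| + |τ|)) * (3 * L) := by
        have hc := hfd q inferInstance χ M u v τ hM1 hu hv ht1
        have h0 : 0 ≤ (M : ℝ) / |τ| + q * |τ| := by positivity
        have h1 : (M : ℝ) / |τ| + q * |τ| ≤ L ^ B * (M / |τ| + |τ|) := by
          rw [mul_add]
          have h2 : (M : ℝ) / |τ| ≤ L ^ B * (M / |τ|) := le_mul_of_one_le_left (by positivity) hLB1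
          have h3 : q * |τ| ≤ L ^ B * |τ| := by gcongr
          linarith
        have h4 : CF * ((M : ℝ) / |τ| + q * |τ|) ≤ CF * (L ^ B * (M / |τ| + |τ|)) := by gcongr
        have h5 : 0 ≤ CF * ((M : ℝ) / |τ| + q * |τ|) := by positivity
        have h6 : 1 + Real.log M ≤ 3 * L := by linarith
        have h7 : CF * ((M : ℝ) / |τ| + q * |τ|) * (1 + Real.log M) ≤
            CF * (L ^ B * (M / |τ| + |τ|)) * (3 * L) := by gcongr
        rcases hF with rfl | rfl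
        · rw [hbd]
          refine hc.1.trans (le_trans ?_ h7)
          nlinarith
        · rw [hbd]
          exact hc.2.trans h7
      have hb3 : b ^ 2 ≤ 72 * CF ^ 2 * L ^ (2 * B + 4) * (M ^ 2 / (2 * T) ^ 2 + (2 * T) ^ 2) := by
        have hs : ((M : ℝ) / |τ| + |τ|) ^ 2 ≤ 8 * (M ^ 2 / (2 * T) ^ 2 + (2 * T) ^ 2) := by
          have h2 : ((M : ℝ) / |τ|) ^ 2 ≤ 4 * (M ^ 2 / (2 * T) ^ 2) := by
            have h3 : (M : ℝ) / |τ| ≤ M / T := by gcongr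
            have h4 : 0 ≤ (M : ℝ) / |τ| := by positivity
            have h5 : 4 * ((M : ℝ) ^ 2 / (2 * T) ^ 2) = (M / T) ^ 2 := by
              field_simp
              ring
            rw [h5]
            exact pow_le_pow_left₀ h4 h3 2
          have h6 : |τ| ^ 2 ≤ (2 * T) ^ 2 := pow_le_pow_left₀ ht0.le hτ2 2
          nlinarith [sq_nonneg ((M : ℝ) / |τ| - |τ|), sq_nonneg (2 * T)]
        refine (pow_le_pow_left₀ hb0 hb2 2).trans ?_
        have h8 : (CF * (L ^ B * (M / |τ| + |τ|)) * (3 * L)) ^ 2 =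
            (9 * CF ^ 2 * L ^ (2 * B + 2)) * ((M : ℝ) / |τ| + |τ|) ^ 2 := by
          rw [show 2 * B + 2 = B + B + 2 by ring, pow_add, pow_add]
          ring
        rw [h8]
        have h9 : 9 * CF ^ 2 * L ^ (2 * B + 2) ≤ 9 * CF ^ 2 * L ^ (2 * B + 4) := by
          have : L ^ (2 * B + 2) ≤ L ^ (2 * B + 4) := pow_le_pow_right₀ hL1 (by omega)
          gcongr
        calc (9 * CF ^ 2 * L ^ (2 * B + 2)) * ((M : ℝ) / |τ| + |τ|) ^ 2 ≤
            (9 * CF ^ 2 * L ^ (2 * B + 4)) * (8 * (M ^ 2 / (2 * T) ^ 2 + (2 * T) ^ 2)) :=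
              mul_le_mul h9 hs (by positivity) (by positivity)
          _ = _ := by ring
      have hr := real_c2 X Y P (2 * T) M (18 ^ 6) hY3 hY1 hP1 (by linarith) (by norm_num) hMP.le
        hM2r (by linarith) hTP2
      calc b ^ 2 * ((2 * T + X / M) * (X / M)) ≤
          (72 * CF ^ 2 * L ^ (2 * B + 4) * (M ^ 2 / (2 * T) ^ 2 + (2 * T) ^ 2)) *
            ((2 * T + X / M) * (X / M)) := mul_le_mul_of_nonneg_right hb3 hpw0
        _ = (72 * CF ^ 2 * L ^ (2 * B + 4)) * ((M ^ 2 / (2 * T) ^ 2 + (2 * T) ^ 2) *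
            ((2 * T + X / M) * (X / M))) := by ring
        _ ≤ (72 * CF ^ 2 * L ^ (2 * B + 4)) * ((18 ^ 6 + 13) * X ^ 2 / P) :=
            mul_le_mul_of_nonneg_left hr (by positivity)
        _ = (72 * (18 ^ 6 + 13) * CF ^ 2) * X ^ 2 / (L * L ^ K) := by
            rw [hPe]
            field_simp
        _ ≤ L * X ^ 2 / (L * L ^ K) := by gcongr
        _ = X ^ 2 / L ^ K := by field_simp

end Pool.Agent.Q246.CR
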