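import Pool.Agent.Q246.CR.Dpl

/-! Project CR (helper236), job DPL, part 2: assembly. -/

set_option autoImplicit false

namespace Pool.Agent.Q246.CR

open Finset Filter MeasureTheory
open Pool.Agent.Q236.CR

/-- dyadic decomposition -/
theorem dyad (g : ℝ → ℝ) (hg : Continuous g) (h0 : ∀ x, 0 ≤ g x) (a W : ℝ) (ha : 0 < a)
    (hW : 0 ≤ W) : ∀ (n : ℕ) (T : ℝ), a ≤ T → T ≤ 2 ^ n * a →
    (∀ T', a ≤ T' → T' ≤ T → ∫ x in T'..(2 * T'), g x ≤ W) → ∫ x in a..T, g x ≤ n * W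
  | 0, T, h1, h2, _ => by
    have : T = a := le_antisymm (by simpa using h2) h1
    rw [this, intervalIntegral.integral_same]
    simp
  | n + 1, T, h1, h2, h3 => by
    have hi : ∀ x y : ℝ, IntervalIntegrable g volume x y := fun x y => hg.intervalIntegrable x y
    rcases le_or_gt T (2 ^ n * a) with h4 | h4
    · refine (dyad g hg h0 a W ha hW n T h1 h4 h3).trans ?_
      push_cast
      nlinarith
    · have h5 : a ≤ 2 ^ n * a := le_mul_of_one_le_left ha.le (one_le_pow₀ (by norm_num))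
      have h6 := dyad g hg h0 a W ha hW n (2 ^ n * a) h5 le_rfl
        fun T' h7 h8 => h3 T' h7 (h8.trans h4.le)
      have h7 := h3 (2 ^ n * a) h5 h4.le
      have h8 : ∫ x in (2 ^ n * a)..T, g x ≤ ∫ x in (2 ^ n * a)..(2 * (2 ^ n * a)), g x := by
        refine intervalIntegral.integral_mono_interval le_rfl h4.le ?_
          (Filter.Eventually.of_forall h0) (hi _ _)
        rw [pow_succ] at h2
        linarith
      rw [← intervalIntegral.integral_add_adjacent_intervals (hi a (2 ^ n * a)) (hi _ T)]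
      push_cast
      linarith

theorem PD_cont {r : ℕ} (F : Fin r → ℕ → ℂ) (x1 x2 : ℕ) : Continuous (PD F x1 x2) := by
  unfold PD
  refine continuous_finsetSum _ fun v hv => continuous_const.mul (nt_cont _ ?_)
  rw [Finset.mem_filter] at hv
  omega

theorem PD_eq {r : ℕ} (F : Fin r → ℕ → ℂ) (x1 x2 : ℕ) (τ : ℝ) :
    ∑ n ∈ Finset.Ioc x1 x2, TS F x2 n * nt τ n = PD F x1 x2 τ := by
  unfold PD TS
  rw [← Finset.sum_fiberwise_of_maps_to (g := fun v : Fin r → ℕ => ∏ i, v i)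
    (t := Finset.Ioc x1 x2)]
  · refine Finset.sum_congr rfl fun n hn => ?_
    rw [Finset.mem_Ioc] at hn
    rw [Finset.sum_mul]
    have e : ((Fintype.piFinset (fun _ : Fin r => Finset.Icc 1 x2)).filter
        (fun v => x1 < ∏ i, v i ∧ ∏ i, v i ≤ x2)).filter (fun v => ∏ i, v i = n) =
        (Fintype.piFinset (fun _ : Fin r => Finset.Icc 1 x2)).filter (fun v => ∏ i, v i = n) := by
      ext v
      simp only [Finset.mem_filter]
      constructor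
      · rintro ⟨⟨h1, -⟩, h2⟩
        exact ⟨h1, h2⟩
      · rintro ⟨h1, h2⟩
        exact ⟨⟨h1, by rw [h2]; exact hn⟩, h2⟩
    rw [e]
    refine Finset.sum_congr rfl fun v hv => ?_
    rw [Finset.mem_filter] at hv
    rw [hv.2]
  · intro v hv
    rw [Finset.mem_filter] at hv
    exact Finset.mem_Ioc.2 hv.2

theorem log3 : (1 : ℝ) ≤ Real.log 3 := by
  rw [Real.le_log_iff_exp_le (by norm_num)]
  exact (Real.exp_one_lt_d9.trans (by norm_num)).le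

theorem Typ_bd {q : ℕ} (χ : DirichletCharacter ℂ q) {z : ℕ} {F : ℕ → ℂ}
    (hF : Typ (fun n => χ (n : ZMod q)) z F) (n : ℕ) : ‖F n‖ ≤ Real.log (n + 3) := by
  have h3 : Real.log 3 ≤ Real.log (n + 3) :=
    Real.log_le_log (by norm_num) (by have := Nat.cast_nonneg (α := ℝ) n; linarith)
  have h1 : (1 : ℝ) ≤ Real.log (n + 3) := log3.trans h3
  have hχ : ‖χ (n : ZMod q)‖ ≤ 1 := χ.norm_le_one _
  rcases hF with rfl | rfl | rfl
  · unfold gmu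
    split_ifs
    · rw [norm_mul]
      have h2 : ‖((ArithmeticFunction.moebius n : ℤ) : ℂ)‖ ≤ 1 := by
        rw [Complex.norm_intCast]
        exact_mod_cast ArithmeticFunction.abs_moebius_le_one
      exact (mul_le_one₀ hχ (norm_nonneg _) h2).trans h1
    · rw [norm_zero]
      linarith
  · exact hχ.trans h1
  · rw [norm_mul, Complex.norm_real, Real.norm_eq_abs, abs_of_nonneg (Real.log_natCast_nonneg n)]
    have h4 : Real.log n ≤ Real.log (n + 3) := by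
      rcases Nat.eq_zero_or_pos n with h | h
      · rw [h]
        simp only [Nat.cast_zero, Real.log_zero, zero_add]
        exact Real.log_nonneg (by norm_num)
      · exact Real.log_le_log (by exact_mod_cast h) (by linarith)
    calc ‖χ (n : ZMod q)‖ * Real.log n ≤ 1 * Real.log n :=
          mul_le_mul_of_nonneg_right hχ (Real.log_natCast_nonneg n)
      _ ≤ _ := by linarith

/-- the products of at most six factors -/
def Piece (B U r : ℕ) : Prop := ∃ Cm : ℕ, ∀ C₀ : ℕ, Cm ≤ C₀ →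
    ∃ C₁ X₀ : ℕ, ∀ X : ℕ, X₀ ≤ X → ∀ (q : ℕ) (_ : NeZero q), (q : ℝ) ≤ Real.log X ^ B →
    ∀ χ : DirichletCharacter ℂ q, ∀ T : ℝ, T * Real.log X ^ C₁ ≤ (X : ℝ) ^ (2 / 3 : ℝ) →
    Real.log X ^ C₀ ≤ T → ∀ z : ℕ, (z : ℝ) ≤ 8 * (X : ℝ) ^ (1 / 3 : ℝ) →
    ∀ F : Fin r → ℕ → ℂ, (∀ i, Typ (fun n => χ (n : ZMod q)) z (F i)) → ∀ x1 x2 : ℕ, X ≤ x1 →
    x2 ≤ 9 * X → ∫ τ in (Real.log X ^ C₀)..T, ‖PD F x1 x2 τ‖ ^ 2 ≤ (X : ℝ) ^ 2 / Real.log X ^ U ∧
    ∫ τ in (-T)..(-Real.log X ^ C₀), ‖PD F x1 x2 τ‖ ^ 2 ≤ (X : ℝ) ^ 2 / Real.log X ^ U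

theorem piece (hMVG : S_MVG) (hPW : S_PW) (hCHR : S_CHR) (hFD : S_FD) (B U r : ℕ) (hr : 1 ≤ r)
    (hr6 : r ≤ 6) : Piece B U r := by
  obtain ⟨K, Xm, hm⟩ := hMVG r (U + 2) hr
  obtain ⟨Cm, hg⟩ := good_all hPW hCHR hFD B K
  refine ⟨Cm, fun C₀ hC₀ => ?_⟩
  obtain ⟨C₁, X₀, hg⟩ := hg C₀ hC₀
  obtain ⟨X1, hX1⟩ : ∃ X1 : ℕ, ∀ X : ℕ, X1 ≤ X → 10 ≤ Real.log X := by
    have := (Real.tendsto_log_atTop.comp tendsto_natCast_atTop_atTop).eventually_ge_atTop 10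
    exact eventually_atTop.1 this
  refine ⟨C₁, max Xm (max X1 (max X₀ 8)), fun X hX q _ hq χ T hT1 hT2 z hz F hF x1 x2 hx1 hx2 => ?_⟩
  have hXm : Xm ≤ X := (le_max_left _ _).trans hX
  have hL := hX1 X ((le_max_left _ _).trans ((le_max_right _ _).trans hX))
  have hX0 : X₀ ≤ X :=
    (le_max_left _ _).trans ((le_max_right _ _).trans ((le_max_right _ _).trans hX))
  have hX8 : 8 ≤ X :=
    (le_max_right _ _).trans ((le_max_right _ _).trans ((le_max_right _ _).trans hX))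
  have hXr : (8 : ℝ) ≤ X := by exact_mod_cast hX8
  have hL1 : 1 ≤ Real.log X := by linarith
  obtain ⟨Y, hYd⟩ : ∃ Y, Y = (X : ℝ) ^ (1 / 3 : ℝ) := ⟨_, rfl⟩
  have hY3 : (X : ℝ) = Y ^ 3 := by
    rw [hYd, ← Real.rpow_natCast, ← Real.rpow_mul (by linarith)]
    norm_num
  have hY2 : (X : ℝ) ^ (2 / 3 : ℝ) = Y ^ 2 := by
    rw [hYd, ← Real.rpow_natCast, ← Real.rpow_mul (by linarith)]
    norm_num
  have hY0 : 0 ≤ Y := by rw [hYd]; positivity
  have hY : 2 ≤ Y := by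
    by_contra h
    push Not at h
    have : Y ^ 3 < 2 ^ 3 := by gcongr
    rw [← hY3] at this
    linarith
  have ha : 0 < Real.log X ^ C₀ := by positivity
  have hLC : ∀ k : ℕ, 1 ≤ Real.log X ^ k := fun k => one_le_pow₀ hL1
  have hTX : T ≤ (X : ℝ) ^ (2 / 3 : ℝ) := by
    refine le_trans (le_mul_of_one_le_right (by linarith) (hLC C₁)) hT1
  -- one dyadic piece
  have hone : ∀ T', Real.log X ^ C₀ ≤ T' → T' ≤ T →
      ∫ τ in T'..(2 * T'), ‖PD F x1 x2 τ‖ ^ 2 ≤ (X : ℝ) ^ 2 / Real.log X ^ (U + 2) ∧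
      ∫ τ in (-(2 * T'))..(-T'), ‖PD F x1 x2 τ‖ ^ 2 ≤ (X : ℝ) ^ 2 / Real.log X ^ (U + 2) := by
    intro T' h1 h2
    have h3 : T' * Real.log X ^ C₁ ≤ (X : ℝ) ^ (2 / 3 : ℝ) := by
      refine le_trans ?_ hT1
      have := hLC C₁
      gcongr
    refine hm X hXm T' (2 * T') (by linarith) (by linarith) ?_ F
      (fun i n => Typ_bd χ (hF i) n) (fun M hM1 hM2 hM3 => ?_) x1 x2 hx1 hx2
    · have : 2 * T' ≤ 2 * Y ^ 2 := by rw [← hY2]; linarith
      rw [hY3]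
      nlinarith [sq_nonneg Y]
    · have : Nonempty (Fin r) := ⟨⟨0, by omega⟩⟩
      obtain ⟨i, hi⟩ := Finite.exists_max M
      refine ⟨i, hg X hX0 q inferInstance hq χ T' h3 h1 z (M i) (F i) (hF i) (hM1 i) ?_ ?_ hz⟩
      · refine hM2.trans ?_
        have h4 : ∏ j, M j ≤ M i ^ r := by
          have := Finset.prod_le_pow_card (Finset.univ : Finset (Fin r)) M (M i) fun j _ => hi j
          simpa using this
        exact h4.trans (Nat.pow_le_pow_right (hM1 i) hr6)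
      · have h5 : M i ≤ ∏ j, M j :=
          Nat.le_of_dvd (Finset.prod_pos fun j _ => hM1 j) (Finset.dvd_prod_of_mem M (mem_univ i))
        refine h5.trans (hM3.trans ?_)
        exact Nat.mul_le_mul_right X (Nat.pow_le_pow_right (by norm_num) hr6)
  have hW0 : 0 ≤ (X : ℝ) ^ 2 / Real.log X ^ (U + 2) := by positivity
  -- the number of pieces
  obtain ⟨n, hn⟩ : ∃ n : ℕ, n = ⌈2 * Real.log X⌉₊ := ⟨_, rfl⟩
  have hn1 : 2 * Real.log X ≤ n := by rw [hn]; exact Nat.le_ceil _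
  have hn2 : (n : ℝ) ≤ Real.log X ^ 2 := by
    have := Nat.ceil_lt_add_one (show 0 ≤ 2 * Real.log X by linarith)
    rw [← hn] at this
    nlinarith
  have hn3 : T ≤ 2 ^ n * Real.log X ^ C₀ := by
    have h1 : T ≤ X := by
      refine hTX.trans ?_
      rw [hY2, hY3]
      nlinarith [sq_nonneg Y]
    have h2 : (X : ℝ) ≤ 2 ^ n := by
      have h3 : (X : ℝ) = Real.exp (Real.log X) := (Real.exp_log (by linarith)).symm
      have h4 : (2 : ℝ) ^ n = Real.exp (n * Real.log 2) := by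
        rw [Real.exp_nat_mul, Real.exp_log (by norm_num)]
      rw [h4]
      conv_lhs => rw [h3]
      refine Real.exp_le_exp.2 ?_
      have := Real.log_two_gt_d9
      nlinarith
    have h5 := hLC C₀
    nlinarith
  have hfin : (n : ℝ) * ((X : ℝ) ^ 2 / Real.log X ^ (U + 2)) ≤ (X : ℝ) ^ 2 / Real.log X ^ U := by
    have h1 : (n : ℝ) * ((X : ℝ) ^ 2 / Real.log X ^ (U + 2)) ≤
        Real.log X ^ 2 * ((X : ℝ) ^ 2 / Real.log X ^ (U + 2)) :=
      mul_le_mul_of_nonneg_right hn2 hW0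
    refine h1.trans (le_of_eq ?_)
    rw [pow_add]
    field_simp
  have hc : Continuous fun τ => ‖PD F x1 x2 τ‖ ^ 2 := (PD_cont F x1 x2).norm.pow 2
  constructor
  · exact (dyad _ hc (fun τ => sq_nonneg _) _ _ ha hW0 n T hT2 hn3
      fun T' h1 h2 => (hone T' h1 h2).1).trans hfin
  · have h1 := (dyad (fun τ => ‖PD F x1 x2 (-τ)‖ ^ 2) (hc.comp continuous_neg)
      (fun τ => sq_nonneg _) _ _ ha hW0 n T hT2 hn3 fun T' h1 h2 => by
        rw [intervalIntegral.integral_comp_neg (fun τ => ‖PD F x1 x2 τ‖ ^ 2)]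
        exact (hone T' h1 h2).2).trans hfin
    rw [intervalIntegral.integral_comp_neg (fun τ => ‖PD F x1 x2 τ‖ ^ 2)] at h1
    exact h1

/-- the three polynomials of Heath-Brown's identity -/
theorem comb (c : ℕ → ℂ) (r : ℕ → ℕ) (G : (j : ℕ) → Fin (r j) → ℕ → ℂ) (x1 x2 : ℕ)
    (hc : ∀ n, 1 ≤ n → n ≤ x2 → c n =
      ∑ j ∈ Finset.range 3, (-1 : ℂ) ^ j * ((3 : ℕ).choose (j + 1) : ℂ) * TS (G j) x2 n)
    (a b W : ℝ) (hab : a ≤ b) (hW : ∀ j < 3, ∫ τ in a..b, ‖PD (G j) x1 x2 τ‖ ^ 2 ≤ W) :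
    ∫ τ in a..b, ‖∑ n ∈ Finset.Ioc x1 x2, c n * nt τ n‖ ^ 2 ≤ 81 * W := by
  have h1 : ∀ τ, ‖∑ n ∈ Finset.Ioc x1 x2, c n * nt τ n‖ ^ 2 ≤
      27 * ∑ j ∈ Finset.range 3, ‖PD (G j) x1 x2 τ‖ ^ 2 := by
    intro τ
    have h2 : ∑ n ∈ Finset.Ioc x1 x2, c n * nt τ n =
        ∑ j ∈ Finset.range 3, (-1 : ℂ) ^ j * ((3 : ℕ).choose (j + 1) : ℂ) * PD (G j) x1 x2 τ := by
      have h3 : ∀ n ∈ Finset.Ioc x1 x2, c n * nt τ n = ∑ j ∈ Finset.range 3,
          (-1 : ℂ) ^ j * ((3 : ℕ).choose (j + 1) : ℂ) * (TS (G j) x2 n * nt τ n) := by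
        intro n hn
        rw [Finset.mem_Ioc] at hn
        rw [hc n (by omega) hn.2, Finset.sum_mul]
        exact Finset.sum_congr rfl fun j _ => by ring
      rw [Finset.sum_congr rfl h3, Finset.sum_comm]
      refine Finset.sum_congr rfl fun j _ => ?_
      rw [← Finset.mul_sum, PD_eq]
    rw [h2]
    have h4 : ∀ j ∈ Finset.range 3, ‖(-1 : ℂ) ^ j * ((3 : ℕ).choose (j + 1) : ℂ) *
        PD (G j) x1 x2 τ‖ ≤ 3 * ‖PD (G j) x1 x2 τ‖ := by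
      intro j hj
      rw [norm_mul, norm_mul, norm_pow, norm_neg, norm_one, one_pow, one_mul, Complex.norm_natCast]
      refine mul_le_mul_of_nonneg_right ?_ (norm_nonneg _)
      have : (3 : ℕ).choose (j + 1) ≤ 3 := by
        rw [Finset.mem_range] at hj
        interval_cases j <;> decide
      exact_mod_cast this
    have h5 := (norm_sum_le (Finset.range 3) fun j => (-1 : ℂ) ^ j *
      ((3 : ℕ).choose (j + 1) : ℂ) * PD (G j) x1 x2 τ).trans (Finset.sum_le_sum h4)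
    refine (pow_le_pow_left₀ (norm_nonneg _) h5 2).trans ?_
    rw [← Finset.mul_sum, mul_pow]
    have h6 := sq_sum_le_card_mul_sum_sq (s := Finset.range 3)
      (f := fun j => ‖PD (G j) x1 x2 τ‖)
    rw [Finset.card_range] at h6
    push_cast at h6
    linarith
  have hcP : ∀ j, Continuous fun τ => ‖PD (G j) x1 x2 τ‖ ^ 2 := fun j => (PD_cont _ x1 x2).norm.pow 2
  have hcL : Continuous fun τ => ‖∑ n ∈ Finset.Ioc x1 x2, c n * nt τ n‖ ^ 2 := by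
    refine Continuous.pow (Continuous.norm ?_) 2
    refine continuous_finsetSum _ fun n hn => continuous_const.mul (nt_cont n ?_)
    rw [Finset.mem_Ioc] at hn
    omega
  have hcR : Continuous fun τ => 27 * ∑ j ∈ Finset.range 3, ‖PD (G j) x1 x2 τ‖ ^ 2 :=
    continuous_const.mul (continuous_finsetSum _ fun j _ => hcP j)
  refine (intervalIntegral.integral_mono hab (hcL.intervalIntegrable _ _)
    (hcR.intervalIntegrable _ _) h1).trans ?_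
  rw [intervalIntegral.integral_const_mul,
    intervalIntegral.integral_finsetSum fun j _ => (hcP j).intervalIntegrable _ _]
  have h7 : ∑ j ∈ Finset.range 3, ∫ τ in a..b, ‖PD (G j) x1 x2 τ‖ ^ 2 ≤
      ∑ j ∈ Finset.range 3, W := Finset.sum_le_sum fun j hj => hW j (Finset.mem_range.1 hj)
  rw [Finset.sum_const, Finset.card_range, nsmul_eq_mul] at h7
  push_cast at h7
  linarith

theorem typ_HBL (g : ℕ → ℂ) (z j : ℕ) (i : Fin ((j + 1) + (j + 1))) : Typ g z (HBL g z j i) := by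
  unfold HBL
  refine Fin.addCases (fun i => ?_) (fun i => ?_) i
  · rw [Fin.addCases_left]
    exact Or.inl rfl
  · rw [Fin.addCases_right]
    by_cases h : (i : ℕ) = j
    · simp only [if_pos h]
      exact Or.inr (Or.inr rfl)
    · simp only [if_neg h]
      exact Or.inr (Or.inl rfl)

theorem typ_HBM (g : ℕ → ℂ) (z j : ℕ) (i : Fin ((j + 1) + j)) : Typ g z (HBM g z j i) := by
  unfold HBM
  refine Fin.addCases (fun i => ?_) (fun i => ?_) i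
  · rw [Fin.addCases_left]
    exact Or.inl rfl
  · rw [Fin.addCases_right]
    exact Or.inr (Or.inl rfl)

theorem dpl : S_HB → S_MVG → S_PW → S_CHR → S_FD → S_DPL := by
  intro hHB hMVG hPW hCHR hFD B U
  have hp : ∀ r : ℕ, ∃ Cm : ℕ, ∀ C₀ : ℕ, Cm ≤ C₀ → ∃ C₁ X₀ : ℕ, 1 ≤ r → r ≤ 6 →
      ∀ X : ℕ, X₀ ≤ X → ∀ (q : ℕ) (_ : NeZero q), (q : ℝ) ≤ Real.log X ^ B →
      ∀ χ : DirichletCharacter ℂ q, ∀ T : ℝ, T * Real.log X ^ C₁ ≤ (X : ℝ) ^ (2 / 3 : ℝ) →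
      Real.log X ^ C₀ ≤ T → ∀ z : ℕ, (z : ℝ) ≤ 8 * (X : ℝ) ^ (1 / 3 : ℝ) →
      ∀ F : Fin r → ℕ → ℂ, (∀ i, Typ (fun n => χ (n : ZMod q)) z (F i)) → ∀ x1 x2 : ℕ, X ≤ x1 →
      x2 ≤ 9 * X →
      ∫ τ in (Real.log X ^ C₀)..T, ‖PD F x1 x2 τ‖ ^ 2 ≤ (X : ℝ) ^ 2 / Real.log X ^ (U + 1) ∧
      ∫ τ in (-T)..(-Real.log X ^ C₀), ‖PD F x1 x2 τ‖ ^ 2 ≤ (X : ℝ) ^ 2 / Real.log X ^ (U + 1) := by
    intro r
    by_cases hr : 1 ≤ r ∧ r ≤ 6
    · obtain ⟨Cm, h⟩ := piece hMVG hPW hCHR hFD B (U + 1) r hr.1 hr.2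
      refine ⟨Cm, fun C₀ hC₀ => ?_⟩
      obtain ⟨C₁, X₀, h⟩ := h C₀ hC₀
      exact ⟨C₁, X₀, fun _ _ => h⟩
    · exact ⟨0, fun C₀ _ => ⟨0, 0, fun h1 h2 => absurd ⟨h1, h2⟩ hr⟩⟩
  choose Cm hCm using hp
  refine ⟨∑ r ∈ Finset.range 7, Cm r, fun C₀ hC₀ => ?_⟩
  have hle : ∀ r ∈ Finset.range 7, Cm r ≤ C₀ := fun r hr =>
    (Finset.single_le_sum (f := Cm) (fun _ _ => Nat.zero_le _) hr).trans hC₀
  have hp2 : ∀ r : ℕ, ∃ C₁ X₀ : ℕ, 1 ≤ r → r ≤ 6 →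
      ∀ X : ℕ, X₀ ≤ X → ∀ (q : ℕ) (_ : NeZero q), (q : ℝ) ≤ Real.log X ^ B →
      ∀ χ : DirichletCharacter ℂ q, ∀ T : ℝ, T * Real.log X ^ C₁ ≤ (X : ℝ) ^ (2 / 3 : ℝ) →
      Real.log X ^ C₀ ≤ T → ∀ z : ℕ, (z : ℝ) ≤ 8 * (X : ℝ) ^ (1 / 3 : ℝ) →
      ∀ F : Fin r → ℕ → ℂ, (∀ i, Typ (fun n => χ (n : ZMod q)) z (F i)) → ∀ x1 x2 : ℕ, X ≤ x1 →
      x2 ≤ 9 * X →
      ∫ τ in (Real.log X ^ C₀)..T, ‖PD F x1 x2 τ‖ ^ 2 ≤ (X : ℝ) ^ 2 / Real.log X ^ (U + 1) ∧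
      ∫ τ in (-T)..(-Real.log X ^ C₀), ‖PD F x1 x2 τ‖ ^ 2 ≤
        (X : ℝ) ^ 2 / Real.log X ^ (U + 1) := by
    intro r
    by_cases hr : 1 ≤ r ∧ r ≤ 6
    · obtain ⟨C₁, X₀, h⟩ := hCm r C₀ (hle r (Finset.mem_range.2 (by omega)))
      exact ⟨C₁, X₀, h⟩
    · exact ⟨0, 0, fun h1 h2 => absurd ⟨h1, h2⟩ hr⟩
  choose C₁ X₀ hH using hp2
  obtain ⟨X1, hX1⟩ : ∃ X1 : ℕ, ∀ X : ℕ, X1 ≤ X → 81 ≤ Real.log X := by
    have := (Real.tendsto_log_atTop.comp tendsto_natCast_atTop_atTop).eventually_ge_atTop 81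
    exact eventually_atTop.1 this
  refine ⟨∑ r ∈ Finset.range 7, C₁ r, X1 + 1 + ∑ r ∈ Finset.range 7, X₀ r,
    fun X hX q _ hq χ T hT1 hT2 x1 x2 hx1 hx2 c hc => ?_⟩
  have hL := hX1 X (by omega)
  have hX1' : 1 ≤ X := by omega
  have hXr : (1 : ℝ) ≤ X := by exact_mod_cast hX1'
  have hX0r : ∀ r ∈ Finset.range 7, X₀ r ≤ X := fun r hr =>
    (Finset.single_le_sum (f := X₀) (fun _ _ => Nat.zero_le _) hr).trans (by omega)
  have hL1 : 1 ≤ Real.log X := by linarith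
  have hT0 : 0 ≤ T := le_trans (by positivity) hT2
  have hT1r : ∀ r ∈ Finset.range 7, T * Real.log X ^ C₁ r ≤ (X : ℝ) ^ (2 / 3 : ℝ) := fun r hr => by
    refine le_trans (mul_le_mul_of_nonneg_left (pow_le_pow_right₀ hL1 ?_) hT0) hT1
    exact Finset.single_le_sum (f := C₁) (fun _ _ => Nat.zero_le _) hr
  -- the parameter `z`
  obtain ⟨Y, hYd⟩ : ∃ Y, Y = (X : ℝ) ^ (1 / 3 : ℝ) := ⟨_, rfl⟩
  have hY3 : (X : ℝ) = Y ^ 3 := by
    rw [hYd, ← Real.rpow_natCast, ← Real.rpow_mul (by linarith)]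
    norm_num
  have hY1 : 1 ≤ Y := by rw [hYd]; exact Real.one_le_rpow hXr (by norm_num)
  obtain ⟨z, hzd⟩ : ∃ z : ℕ, z = ⌈3 * Y⌉₊ := ⟨_, rfl⟩
  have hz1 : 3 * Y ≤ z := by rw [hzd]; exact Nat.le_ceil _
  have hz2 : (z : ℝ) ≤ 8 * (X : ℝ) ^ (1 / 3 : ℝ) := by
    have := Nat.ceil_lt_add_one (show 0 ≤ 3 * Y by linarith)
    rw [← hzd] at this
    rw [← hYd]
    linarith
  have hz3 : 9 * X ≤ z ^ 3 := by
    have h1 : (3 * Y) ^ 3 ≤ (z : ℝ) ^ 3 := by gcongr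
    have h2 : (9 * X : ℝ) ≤ (z : ℝ) ^ 3 := by
      rw [hY3]
      refine le_trans ?_ h1
      have : 0 ≤ Y ^ 3 := by positivity
      nlinarith
    exact_mod_cast h2
  have hgm : ∀ m n : ℕ, χ ((m * n : ℕ) : ZMod q) = χ (m : ZMod q) * χ (n : ZMod q) := by
    intro m n
    rw [Nat.cast_mul, map_mul]
  have hg1 : χ ((1 : ℕ) : ZMod q) = 1 := by simp
  have hfin : 81 * ((X : ℝ) ^ 2 / Real.log X ^ (U + 1)) ≤ (X : ℝ) ^ 2 / Real.log X ^ U := by
    have h1 : 81 * ((X : ℝ) ^ 2 / Real.log X ^ (U + 1)) ≤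
        Real.log X * ((X : ℝ) ^ 2 / Real.log X ^ (U + 1)) :=
      mul_le_mul_of_nonneg_right hL (by positivity)
    refine h1.trans (le_of_eq ?_)
    rw [pow_succ (Real.log X) U]
    field_simp
  rcases hc with rfl | rfl
  · have hid : ∀ n, 1 ≤ n → n ≤ x2 → cL χ n = ∑ j ∈ Finset.range 3,
        (-1 : ℂ) ^ j * ((3 : ℕ).choose (j + 1) : ℂ) * TS (HBL (fun n => χ (n : ZMod q)) z j) x2 n :=
      fun n h1 h2 => (hHB (fun n => χ (n : ZMod q)) hgm hg1 3 z x2 n h1 h2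
        (h2.trans (hx2.trans hz3))).1
    have hr : ∀ j < 3, 1 ≤ (j + 1) + (j + 1) ∧ (j + 1) + (j + 1) ≤ 6 := fun j hj => by omega
    constructor
    · refine (comb (cL χ) (fun j => (j + 1) + (j + 1)) (fun j => HBL (fun n => χ (n : ZMod q)) z j)
        x1 x2 hid _ _ _ hT2 fun j hj => ?_).trans hfin
      exact (hH _ (hr j hj).1 (hr j hj).2 X (hX0r _ (Finset.mem_range.2 (by omega))) q inferInstance hq χ T
        (hT1r _ (Finset.mem_range.2 (by omega))) hT2 z hz2 _ (typ_HBL _ z j) x1 x2 hx1 hx2).1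
    · refine (comb (cL χ) (fun j => (j + 1) + (j + 1)) (fun j => HBL (fun n => χ (n : ZMod q)) z j)
        x1 x2 hid _ _ _ (neg_le_neg hT2) fun j hj => ?_).trans hfin
      exact (hH _ (hr j hj).1 (hr j hj).2 X (hX0r _ (Finset.mem_range.2 (by omega))) q inferInstance hq χ T
        (hT1r _ (Finset.mem_range.2 (by omega))) hT2 z hz2 _ (typ_HBL _ z j) x1 x2 hx1 hx2).2
  · have hid : ∀ n, 1 ≤ n → n ≤ x2 → cM χ n = ∑ j ∈ Finset.range 3,
        (-1 : ℂ) ^ j * ((3 : ℕ).choose (j + 1) : ℂ) * TS (HBM (fun n => χ (n : ZMod q)) z j) x2 n :=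
      fun n h1 h2 => (hHB (fun n => χ (n : ZMod q)) hgm hg1 3 z x2 n h1 h2
        (h2.trans (hx2.trans hz3))).2
    have hr : ∀ j < 3, 1 ≤ (j + 1) + j ∧ (j + 1) + j ≤ 6 := fun j hj => by omega
    constructor
    · refine (comb (cM χ) (fun j => (j + 1) + j) (fun j => HBM (fun n => χ (n : ZMod q)) z j)
        x1 x2 hid _ _ _ hT2 fun j hj => ?_).trans hfin
      exact (hH _ (hr j hj).1 (hr j hj).2 X (hX0r _ (Finset.mem_range.2 (by omega))) q inferInstance hq χ T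
        (hT1r _ (Finset.mem_range.2 (by omega))) hT2 z hz2 _ (typ_HBM _ z j) x1 x2 hx1 hx2).1
    · refine (comb (cM χ) (fun j => (j + 1) + j) (fun j => HBM (fun n => χ (n : ZMod q)) z j)
        x1 x2 hid _ _ _ (neg_le_neg hT2) fun j hj => ?_).trans hfin
      exact (hH _ (hr j hj).1 (hr j hj).2 X (hX0r _ (Finset.mem_range.2 (by omega))) q inferInstance hq χ T
        (hT1r _ (Finset.mem_range.2 (by omega))) hT2 z hz2 _ (typ_HBM _ z j) x1 x2 hx1 hx2).2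

end Pool.Agent.Q246.CR
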